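import Pool.Agent.Helper1_RL.AllI
import Pool.Agent.Helper66_RLA.U2b
import Pool.Agent.Helper10_RLA.U2e
import Pool.Agent.Helper10_RLA.Sel
import Pool.Agent.Helper58_RL.NeckAll
import Pool.Agent.Helper74_RLA.Prof2
import Pool.Agent.Helper74_RL.PartII

/-!
# MP_62da59_gt: the final statement
-/

namespace Pool.Agent.RLim

theorem partIP : PartIStmt :=
  partI_cond (H58.neckStmt H74.prof H31.nm H31.cont) (H66.u2b H66.u2m) (H10.u2e H66.u2m) H10.sel

theorem main : FinalStmt := final partIP partIIP

end Pool.Agent.RLim
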