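import Pool.Agent.Helper1_RL.FinI
import Pool.Agent.Helper49_RLA.Bg
import Pool.Agent.Helper20_RLA.Core
import Pool.Agent.Helper76_RLA.U2r
import Pool.Agent.Helper69_RLA.Ext
import Pool.Agent.Helper47_RLA.Hopf
import Pool.Agent.Helper65_RLA.Gbd
import Pool.Agent.Helper88_RLA.Gda
import Pool.Agent.Helper88_RLA.Gex
import Pool.Agent.Helper47_RLA.Glo
import Pool.Agent.Helper4_RLA.Gmr
import Pool.Agent.Helper69_RLA.Scl
import Pool.Agent.Helper4_RLA.Mt
import Pool.Agent.Helper1_RLA.Bgg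
import Pool.Agent.Helper31_RLA.Nm
import Pool.Agent.Helper31_RLA.Cont
import Pool.Agent.Helper66_RLA.U2m
import Pool.Agent.Helper74_RL.PartII

/-!
# Part I (MP_62da59_gt)
-/

namespace Pool.Agent.RLim

theorem partI_cond (hNeck : NeckStmt) (hU2B : U2BaseStmt) (hU2E : U2EquivStmt)
    (hSel : SelStmt) : PartIStmt := by
  have hCont : ContStmt := H31.cont
  have hU2M : U2MetricStmt := H66.u2m
  have hBgr : BgRicStmt := bgRic H49.bgm (H1.bgg H49.bgm) hCont
  have hGlo : GloStmt := H47.glo H49.bgs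
  have hModel : ModelStmt := H4.mt hNeck hU2M (H76.u2r hU2M hU2B hU2E) H20.core H47.hopf_stmt
  exact partI (H88.gda hModel hSel) (H4.gmr hGlo H69.scl hBgr) (H88.gex hGlo H69.ext)
    (H65.gbd hGlo H47.hopf_stmt hBgr)

end Pool.Agent.RLim
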