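import Pool.Agent.Helper36_RF.Cl

/-!
# Noncollapsed Ricci limit spaces (MP_62da59_gt): definitions of the final statement

Complete connected Riemannian `n`-manifolds with `Ric ≥ -lam` are metric spaces with a smooth
atlas (charts are parametrizations of open subsets by open subsets of `ℝ^n`), a smooth Riemannian
metric given by its components in the charts, and the Riemannian distance.  The Ricci tensor is
given by the classical formula in local coordinates (`Pool.Agent.SecondKind.ricci`).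
-/

noncomputable section

open scoped ContDiff Topology ENNReal
open Set Metric

namespace Pool.Agent.RLim

open Pool.Agent.SecondKind (Coord ricci)

variable {n : ℕ} {M : Type}

/-- A local parametrization `ψ : U → M`, `U ⊆ ℝ^n`, and the components `g_{ij}` of a metric
on `U`. -/
structure Chart (n : ℕ) (M : Type) where
  U : Set (Fin n → ℝ)
  ψ : (Fin n → ℝ) → M
  g : Coord n

/-- `g_y(v,v)` for the vector `v` with components `v i` -/
def Chart.quad (C : Chart n M) (y v : Fin n → ℝ) : ℝ := ∑ i, ∑ j, C.g y i j * v i * v j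

/-- `L` is the length of a `C¹` curve `ψ ∘ c`, `c : [0,1] → U`, from `x` to `y` -/
def IsSeg (C : Chart n M) (x y : M) (L : ℝ) : Prop :=
  ∃ c : ℝ → Fin n → ℝ, ContDiff ℝ 1 c ∧ (∀ t ∈ Icc (0:ℝ) 1, c t ∈ C.U) ∧
    C.ψ (c 0) = x ∧ C.ψ (c 1) = y ∧ L = ∫ t in (0:ℝ)..1, √(C.quad (c t) (deriv c t))

/-- `L` is the length of a piecewise `C¹` curve from `x` to `y` -/
inductive IsLen (A : Set (Chart n M)) : M → M → ℝ → Prop
  | nil (x : M) : IsLen A x x 0
  | cons {x y z : M} {L L' : ℝ} {C : Chart n M} : C ∈ A → IsSeg C x y L → IsLen A y z L' →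
      IsLen A x z (L + L')

/-- `M` with the atlas `A` is a complete connected smooth Riemannian `n`-manifold with
`Ric ≥ -lam`, and the distance of `M` is its Riemannian distance. -/
structure IsRicciManifold (n : ℕ) (lam : ℝ) (M : Type) [MetricSpace M] (A : Set (Chart n M)) :
    Prop where
  complete : CompleteSpace M
  cover : ∀ x : M, ∃ C ∈ A, x ∈ C.ψ '' C.U
  isOpen : ∀ C ∈ A, IsOpen C.U
  homeo : ∀ C ∈ A, Topology.IsOpenEmbedding (fun y : C.U => C.ψ y)
  smooth : ∀ C ∈ A, ∀ i j, ContDiffOn ℝ ∞ (fun y => C.g y i j) C.U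
  symm : ∀ C ∈ A, ∀ y ∈ C.U, ∀ i j, C.g y i j = C.g y j i
  pos : ∀ C ∈ A, ∀ y ∈ C.U, ∀ v, v ≠ 0 → 0 < C.quad y v
  /-- the transition maps `f` are smooth and the components of the metric transform correctly -/
  transition : ∀ C ∈ A, ∀ C' ∈ A, ∃ f : (Fin n → ℝ) → Fin n → ℝ,
    ContDiffOn ℝ ∞ f (C.U ∩ C.ψ ⁻¹' (C'.ψ '' C'.U)) ∧
    ∀ y ∈ C.U ∩ C.ψ ⁻¹' (C'.ψ '' C'.U), f y ∈ C'.U ∧ C'.ψ (f y) = C.ψ y ∧
      ∀ i j, C.g y i j = ∑ k, ∑ l, C'.g (f y) k l *
        fderiv ℝ f y (Pi.single i 1) k * fderiv ℝ f y (Pi.single j 1) l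
  ricci_ge : ∀ C ∈ A, ∀ y ∈ C.U, ∀ v : Fin n → ℝ,
    -lam * C.quad y v ≤ ∑ i, ∑ j, ricci C.g i j y * v i * v j
  dist_eq : ∀ x y : M, IsGLB {L | IsLen A x y L} (dist x y)

/-- the `n`-dimensional Hausdorff measure of a subset of a metric space; on a Riemannian
`n`-manifold it is a constant multiple (depending on `n`) of the Riemannian volume -/
def hvol (n : ℕ) {M : Type} [MetricSpace M] (s : Set M) : ℝ≥0∞ :=
  letI : MeasurableSpace M := borel M
  haveI : BorelSpace M := ⟨rfl⟩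
  MeasureTheory.Measure.hausdorffMeasure (n : ℝ) s

/-- pointed Gromov-Hausdorff convergence `(M i, p i) → (X, q)` -/
def PGH (M : ℕ → Type) [∀ i, MetricSpace (M i)] (p : ∀ i, M i) (X : Type) [MetricSpace X]
    (q : X) : Prop :=
  ∀ R > 0, ∀ ε > 0, ∃ N, ∀ i ≥ N, ∃ f : M i → X, dist (f (p i)) q < ε ∧
    (∀ a ∈ ball (p i) R, ∀ b ∈ ball (p i) R, |dist (f a) (f b) - dist a b| < ε) ∧
    ∀ y ∈ ball q (R - ε), ∃ a ∈ ball (p i) R, dist (f a) y < ε

/-- `(X, q)` is a complete pointed Gromov-Hausdorff limit of complete connected Riemannian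
`n`-manifolds `(M i, p i)` with `Ric ≥ -lam` and `Vol (B_1 (p i)) > v`. -/
def IsNoncollapsedRicciLimit (n : ℕ) (lam v : ℝ) (X : Type) [MetricSpace X] (q : X) : Prop :=
  CompleteSpace X ∧ ∃ (M : ℕ → Type) (_ : ∀ i, MetricSpace (M i)) (A : ∀ i, Set (Chart n (M i)))
    (p : ∀ i, M i), (∀ i, IsRicciManifold n lam (M i) (A i)) ∧
      (∀ i, ENNReal.ofReal v < hvol n (ball (p i) 1)) ∧ PGH M p X q

/-- The final statement: the negated form of Q1 with `n = 4`. -/
def FinalStmt : Prop :=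
  ∃ lam v : ℝ, 0 ≤ lam ∧ 0 < v ∧ ∃ (X : Type) (_ : MetricSpace X) (q : X),
    IsNoncollapsedRicciLimit 4 lam v X q ∧
    ∀ S : Set X, dimH S ≤ 1 → IsEmpty (ChartedSpace (EuclideanSpace ℝ (Fin 4)) (Sᶜ : Set X))

end Pool.Agent.RLim
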