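import Pool.Agent.Helper36_RF.Geo
import Pool.Agent.Helper1_RL.Cl

/-!
# Interface between the metric part and the limit part (MP_62da59_gt)

`ℝ⁴ = ℂ²`, `X = (u,z)`, `u = X 0 + i X 1`, `z = X 2 + i X 3`; `Σ = {z = 0}`.
-/

noncomputable section

open scoped ContDiff Topology ENNReal RealInnerProductSpace
set_option maxSynthPendingDepth 3
open Set Metric

namespace Pool.Agent.RLim

open Pool.Agent.RF

abbrev E4 := E (Fin 4)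
abbrev E3 := E (Fin 3)

/-- multiplication by `i` -/
def JJ (X : E4) : E4 := WithLp.toLp 2 ![-X 1, X 0, -X 3, X 2]

/-- the rotation field in the `z` plane -/
def YY (X : E4) : E4 := WithLp.toLp 2 ![0, 0, -X 3, X 2]

/-- the Hopf map, homogeneous of degree `0`, with values in the unit sphere of `ℝ³` -/
def hopf (X : E4) : E3 := WithLp.toLp 2 ![2 * (X 0 * X 2 + X 1 * X 3) / ‖X‖ ^ 2,
  2 * (X 1 * X 2 - X 0 * X 3) / ‖X‖ ^ 2, (X 0 ^ 2 + X 1 ^ 2 - X 2 ^ 2 - X 3 ^ 2) / ‖X‖ ^ 2]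

/-- the rank one form `V, W ↦ ⟪a,V⟫⟪a,W⟫` -/
def sq (a : E4) : Bil E4 := (innerSL ℝ a).smulRight (innerSL ℝ a)

@[simp] theorem sq_apply (a V W : E4) : sq a V W = ⟪a, V⟫ * ⟪a, W⟫ := rfl

/-- `α |V|² + μ (X·V)² + κ (iX·V)² + H (Y·V)²` -/
def gen (α μ κ H : ℝ) (X : E4) : Bil E4 :=
  α • del (Fin 4) + μ • sq X + κ • sq (JJ X) + H • sq (YY X)

theorem gen_apply (α μ κ H : ℝ) (X V W : E4) : gen α μ κ H X V W =
    α * ⟪V, W⟫ + μ * (⟪X, V⟫ * ⟪X, W⟫) + κ * (⟪JJ X, V⟫ * ⟪JJ X, W⟫)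
      + H * (⟪YY X, V⟫ * ⟪YY X, W⟫) := rfl

/-- the core metric `|X̄·dX|²/R² + b² |u dz - z du|²/R⁴` near the exceptional sphere -/
def coreM (b : ℝ) (X : E4) : Bil E4 :=
  gen (b ^ 2 / ‖X‖ ^ 2) ((1 - b ^ 2 / ‖X‖ ^ 2) / ‖X‖ ^ 2) ((1 - b ^ 2 / ‖X‖ ^ 2) / ‖X‖ ^ 2) 0 X

/-- the two charts `(a,b) ↦ (a, ab)` (`i = false`) and `(a,b) ↦ (ab, a)` (`i = true`) of the
blow-up; `a = q 0 + i q 1`, `b = q 2 + i q 3` -/
def Phi0 (i : Bool) (q : E4) : E4 := if i then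
    WithLp.toLp 2 ![q 0 * q 2 - q 1 * q 3, q 0 * q 3 + q 1 * q 2, q 0, q 1]
  else WithLp.toLp 2 ![q 0, q 1, q 0 * q 2 - q 1 * q 3, q 0 * q 3 + q 1 * q 2]

/-- the domain `|a|² (1 + |b|²) < 1/16`, that is `‖Phi0 i q‖ < 1/4` -/
def WW : Set E4 := {q | (q 0 ^ 2 + q 1 ^ 2) * (1 + q 2 ^ 2 + q 3 ^ 2) < 1 / 16}

/-- The output of the metric part. -/
structure MetricData where
  /-- the centres, in the plane `Σ` -/
  P : ℕ → E4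
  /-- radii of the insertion balls, and scales of the cores -/
  s : ℕ → ℝ
  w : ℕ → ℝ
  c0 : ℝ
  c1 : ℝ
  C0 : ℝ
  g : ℕ → E4 → Bil E4
  K : Set E4
  c0_pos : 0 < c0
  c1_pos : 0 < c1
  P2 : ∀ k, P k 2 = 0
  P3 : ∀ k, P k 3 = 0
  P_le : ∀ k, ‖P k‖ ≤ 2
  w_pos : ∀ k, 0 < w k
  w_le : ∀ k, 16 * w k ≤ s k
  s_le : ∀ k, s k ≤ 1 / 2 ^ (k + 3)
  /-- the insertion balls are disjoint -/
  disj : ∀ k l, k ≠ l → 2 * (s k + s l) ≤ dist (P k) (P l)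
  /-- `g j` is a smooth metric on `ℝ⁴ \ {P k | k < j}` with `Ric ≥ -1` -/
  metric : ∀ j, IsMetricOn (g j) {X | ∀ k < j, X ≠ P k}
  ric_ge : ∀ j X, (∀ k < j, X ≠ P k) → ∀ V, -(g j X V V) ≤ ric (g j) X V V
  /-- the metric extends smoothly to the exceptional spheres -/
  ext : ∀ j, ∀ k < j, ∀ i : Bool, ∃ C : E4 → Bil E4, IsMetricOn C WW ∧
    ∀ q ∈ WW, (q 0 ≠ 0 ∨ q 1 ≠ 0) → C q = pullb (g j) (fun q => P k + w k • Phi0 i q) q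
  low : ∀ j X, (∀ k < j, X ≠ P k) → ∀ V, c0 * ‖V‖ ^ 2 ≤ g j X V V
  lowv : ∀ j, ∀ k < j, ∀ X, (∀ l < j, X ≠ P l) → ∀ V,
    c1 * (w k * ‖fderiv ℝ hopf (X - P k) V‖) ^ 2 ≤ g j X V V
  /-- the upper bound away from the cores, and in the cores -/
  up : ∀ j X, (∀ k < j, w k ≤ ‖X - P k‖) → ∀ V, g j X V V ≤ C0 * ‖V‖ ^ 2
  upv : ∀ j, ∀ k < j, ∀ X, X ≠ P k → ‖X - P k‖ ≤ w k → ∀ V,
    g j X V V ≤ C0 * (‖V‖ ^ 2 + (w k * ‖fderiv ℝ hopf (X - P k) V‖) ^ 2)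
  /-- `K ⊆ Σ` has positive area, avoids the centres and the centres accumulate at every point -/
  K2 : ∀ X ∈ K, X 2 = 0 ∧ X 3 = 0
  K_ne : ∀ X ∈ K, ∀ k, X ≠ P k
  K_area : 0 < MeasureTheory.volume ((fun X : E4 => (X 0, X 1)) '' K)
  K_acc : ∀ X ∈ K, ∀ ε > 0, ∀ N, ∃ k ≥ N, dist (P k) X < ε

def PartIStmt : Prop := Nonempty MetricData

def PartIIStmt : Prop := MetricData → FinalStmt

theorem final (h1 : PartIStmt) (h2 : PartIIStmt) : FinalStmt := h1.elim h2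

end Pool.Agent.RLim
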