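import Pool.Agent.Helper1_RL.Stmts

/-!
# Assembly of part I (MP_62da59_gt)
-/

noncomputable section

open scoped ContDiff Topology ENNReal RealInnerProductSpace
set_option maxSynthPendingDepth 3
open Set Metric

namespace Pool.Agent.RLim

open Pool.Agent.RF

theorem partI (hgda : GdaStmt) (hgmr : GmrStmt) (hgex : GexStmt) (hgbd : GbdStmt) :
    PartIStmt := by
  obtain ⟨D, hP, K, hK1, hK2, hK3, hK4⟩ := hgda
  obtain ⟨c0, c1, C0, h0, h1, hb⟩ := hgbd D
  refine ⟨⟨D.P, D.s, D.w, c0, c1, C0, D.g, K, h0, h1, D.P2, D.P3, hP, ?_, ?_, D.s_le, D.disj,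
    fun j => (hgmr D j).1, fun j X hX V => (hgmr D j).2 X hX V, fun j k hk i => hgex D j k hk i,
    fun j X hX V => (hb j).1 X hX V, fun j k hk X hX V => (hb j).2.1 k hk X hX V,
    fun j X hX V => (hb j).2.2.1 X hX V, fun j k hk X hX hX' V => (hb j).2.2.2 k hk X hX hX' V,
    hK1, hK2, hK3, hK4⟩⟩
  · intro k
    exact div_pos (D.s_pos k) (by linarith [D.L_ge k])
  · intro k
    have hL := D.L_ge k
    have hs := D.s_pos k
    unfold GData.w
    rw [← mul_div_assoc, div_le_iff₀ (by linarith)]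
    nlinarith

theorem bgRic (hm : BgMetricStmt) (hg : BgGenStmt) (hc : ContStmt) : BgRicStmt := by
  intro r δ hr hr1 hδ
  obtain ⟨hM, hb⟩ := hm r δ hr hr1 hδ
  refine ⟨hM, ?_, hb⟩
  have key := hc (Fin 4) (bg r δ) univ {X | (X 0 ≠ 0 ∨ X 1 ≠ 0) ∧ (X 2 ≠ 0 ∨ X 3 ≠ 0)} 0 hM ?_ ?_
  · intro X V
    have := key X (mem_univ _) V
    simpa using this
  · intro X _
    rw [Metric.mem_closure_iff]
    intro ε hε
    have hv : ∃ t : ℝ, 0 < t ∧ t < ε / 2 ∧ X 0 + t ≠ 0 ∧ X 2 + t ≠ 0 := by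
      by_cases h1 : X 0 + ε / 4 ≠ 0 ∧ X 2 + ε / 4 ≠ 0
      · exact ⟨ε / 4, by linarith, by linarith, h1.1, h1.2⟩
      by_cases h2 : X 0 + ε / 8 ≠ 0 ∧ X 2 + ε / 8 ≠ 0
      · exact ⟨ε / 8, by linarith, by linarith, h2.1, h2.2⟩
      refine ⟨ε / 16, by linarith, by linarith, ?_, ?_⟩
      · intro h3
        have a1 : X 0 + ε / 4 ≠ 0 := by intro h; linarith
        have a2 : X 0 + ε / 8 ≠ 0 := by intro h; linarith
        have b1 : X 2 + ε / 4 = 0 := by
          by_contra h; exact h1 ⟨a1, h⟩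
        have b2 : X 2 + ε / 8 = 0 := by
          by_contra h; exact h2 ⟨a2, h⟩
        linarith
      · intro h3
        have a1 : X 2 + ε / 4 ≠ 0 := by intro h; linarith
        have a2 : X 2 + ε / 8 ≠ 0 := by intro h; linarith
        have b1 : X 0 + ε / 4 = 0 := by
          by_contra h; exact h1 ⟨h, a1⟩
        have b2 : X 0 + ε / 8 = 0 := by
          by_contra h; exact h2 ⟨h, a2⟩
        linarith
    obtain ⟨t, ht, ht2, h0, h2⟩ := hv
    refine ⟨X + WithLp.toLp 2 ![t, 0, t, 0], ⟨mem_univ _, ?_, ?_⟩, ?_⟩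
    · left
      simpa using h0
    · left
      simpa using h2
    · rw [dist_eq_norm, EuclideanSpace.norm_eq, Real.sqrt_lt' hε, Fin.sum_univ_four]
      simp
      nlinarith
  · intro X hX V
    have := hg r δ hr hr1 hδ X hX.2.1 hX.2.2 V
    simpa using this

end Pool.Agent.RLim
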