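import Pool.Agent.Helper1_RL.Defs

/-!
# Part I (the metrics): statements (MP_62da59_gt)
-/

noncomputable section

open scoped ContDiff Topology ENNReal RealInnerProductSpace
set_option maxSynthPendingDepth 3
open Set Metric

namespace Pool.Agent.RLim

open Pool.Agent.RF

/-! ## The neck: pointwise inequality in real numbers

`F`, `f = R F'`, `P = -R β'/β`, `P1 = R P'`, `P2 = R P1'`, `n`, `n1 = R n'`, `c`, `c1 = R c'`,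
`c2 = R c1'`, `d = δ/R`, `S = sin t`, `C = cos t` at a point at distance `R` from the centre. -/

structure NP where
  F : ℝ
  f : ℝ
  β : ℝ
  P : ℝ
  P1 : ℝ
  P2 : ℝ
  n : ℝ
  n1 : ℝ
  c : ℝ
  c1 : ℝ
  c2 : ℝ
  d : ℝ
  S : ℝ
  C : ℝ

namespace NP

variable (p : NP)

/-- `√(S² + d²)` -/
def rd : ℝ := √(p.S ^ 2 + p.d ^ 2)
def e : ℝ := p.d / p.rd
def nu : ℝ := p.rd - p.d
def nu1 : ℝ := p.S / p.rd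
def nu2 : ℝ := p.d ^ 2 / p.rd ^ 3
def k : ℝ := p.S * p.nu
def k1 : ℝ := p.nu + p.S * p.nu1
def k2 : ℝ := p.nu1 * (3 - p.nu1 ^ 2)
def m : ℝ := p.d * p.S / p.rd
def m1 : ℝ := p.e ^ 3
def m2 : ℝ := -3 * p.e ^ 3 * p.S / p.rd ^ 2
def a0 : ℝ := p.S - p.c * p.k - p.m
/-- `B / R` -/
def phi : ℝ := p.β * p.a0 + p.m
def b1 : ℝ := -p.P * p.β
def b2 : ℝ := (-p.P1 + p.P ^ 2 + p.P) * p.β
def h1 : ℝ := p.c1 - p.c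
def h2 : ℝ := p.c2 - 3 * p.c1 + 2 * p.c
def phR : ℝ := p.b1 * p.a0 - p.β * p.h1 * p.k
def phRR : ℝ := p.b2 * p.a0 - 2 * p.b1 * p.h1 * p.k - p.β * p.h2 * p.k
def phr : ℝ := p.β * (1 - p.c * p.k1 - p.m1) + p.m1
def phRr : ℝ := p.b1 * (1 - p.c * p.k1 - p.m1) - p.β * p.h1 * p.k1
def phrr : ℝ := -p.β * p.c * p.k2 + (1 - p.β) * p.m2
def N : ℝ := 1 - p.n * p.nu
def NR : ℝ := -(p.n1 - p.n) * p.nu - p.n * p.nu1 * p.S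
def Nt : ℝ := -p.n * p.nu1 * p.C
def Ntt : ℝ := -p.n * p.nu2 * p.C ^ 2 + p.n * p.nu1 * p.S
def BR : ℝ := p.phR + p.phr * p.S
def Bt : ℝ := p.phr * p.C
def BRR : ℝ := p.phRR + 2 * p.phRr * p.S + p.phrr * p.S ^ 2
def Btt : ℝ := p.phrr * p.C ^ 2 - p.phr * p.S
/-- `R B_{Rt} - B_t` -/
def BRt : ℝ := p.C * (p.phRr + p.phrr * p.S)
def al : ℝ := p.f / 2 / p.N ^ 2 - p.F * p.NR / p.N ^ 3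
def K : ℝ := -p.f / (2 * p.N ^ 2) + p.F * p.NR / p.N ^ 3 - p.Ntt / p.N
def HssB : ℝ := p.F / p.N ^ 2 * p.BRR + p.al * p.BR + p.Nt / p.N * p.Bt
def HttB : ℝ := p.Btt + p.F / p.N ^ 2 * p.BR
def HstB : ℝ := √p.F / p.N * (p.BRt - p.Nt / p.N * p.BR)
def HssC : ℝ := p.al - p.Nt / p.N * p.S / p.C
def HttC : ℝ := -1 + p.F / p.N ^ 2
def HstC : ℝ := -(√p.F / p.N ^ 2 * p.Nt)
def gr : ℝ := p.F / p.N ^ 2 * p.BR / p.phi - p.Bt / p.phi * (p.S / p.C)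
/-- `R²` times the components of the Ricci tensor in the orthonormal frame -/
def ss : ℝ := p.K - p.HssB / p.phi - p.HssC
def tt : ℝ := p.K - p.HttB / p.phi - p.HttC
def st : ℝ := -p.HstB / p.phi - p.HstC
def r11 : ℝ := -(p.HssB + p.HttB) / p.phi - p.gr
def r22 : ℝ := -(p.HssC + p.HttC) - p.gr

/-- Ricci is at least `-μ/R²` -/
def good (μ : ℝ) : Prop :=
  (∀ x y : ℝ, -μ * (x ^ 2 + y ^ 2) ≤ p.ss * x ^ 2 + 2 * p.st * x * y + p.tt * y ^ 2) ∧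
    -μ ≤ p.r11 ∧ -μ ≤ p.r22

def geom : Prop := 0 < p.S ∧ 0 < p.C ∧ p.S ^ 2 + p.C ^ 2 = 1 ∧ 0 < p.d

/-- the hypotheses of the pointwise inequality, with slack `μ` -/
def hyp (μ : ℝ) : Prop :=
  0 < p.F ∧ p.F ≤ 1 ∧ 0 < p.β ∧ p.β ≤ 1 ∧ 0 ≤ p.P ∧ p.P ≤ (1 - p.F + μ) / 10 ^ 6 ∧
  |p.P1| ≤ (1 - p.F + μ) / 10 ^ 6 ∧ |p.P2| ≤ (1 - p.F + μ) / 10 ^ 6 ∧
  -p.P / 1024 - μ / 10 ^ 6 ≤ p.P1 ∧ -(p.P + |p.P1|) / 1024 - μ / 10 ^ 6 ≤ p.P2 ∧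
  0 ≤ p.f ∧ p.f ≤ p.F * p.P / 16 + μ / 10 ^ 6 ∧
  p.n = p.F * p.P / 8 ∧ p.n1 = (p.F * p.P1 + p.f * p.P) / 8 ∧
  p.c = 16 * p.P ∧ p.c1 = 16 * p.P1 ∧ p.c2 = 16 * p.P2

end NP

/-- NECKPT: the pointwise inequality. -/
def NeckPtStmt : Prop :=
  ∀ μ : ℝ, 0 ≤ μ → μ ≤ 1 → ∀ p : NP, p.geom → p.d ≤ p.β / 100 → p.hyp μ → p.good μ

/-! ## The neck metric -/

/-- profile functions of `R` -/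
structure Prof where
  F : ℝ → ℝ
  β : ℝ → ℝ
  P : ℝ → ℝ
  n : ℝ → ℝ
  c : ℝ → ℝ

/-- `R f'(R)` -/
def dl (f : ℝ → ℝ) (R : ℝ) : ℝ := R * deriv f R

namespace Prof

variable (q : Prof)

/-- smooth, positive, and `P = -R β'/β` -/
structure Ok : Prop where
  F_smooth : ContDiffOn ℝ ∞ q.F (Ioi 0)
  β_smooth : ContDiffOn ℝ ∞ q.β (Ioi 0)
  P_smooth : ContDiffOn ℝ ∞ q.P (Ioi 0)
  n_smooth : ContDiffOn ℝ ∞ q.n (Ioi 0)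
  c_smooth : ContDiffOn ℝ ∞ q.c (Ioi 0)
  F_pos : ∀ R, 0 < R → 0 < q.F R
  β_pos : ∀ R, 0 < R → 0 < q.β R
  β_deriv : ∀ R, 0 < R → HasDerivAt q.β (-(q.P R * q.β R / R)) R
  n_nonneg : ∀ R, 0 < R → 0 ≤ q.n R
  n_le : ∀ R, 0 < R → q.n R ≤ 1 / 8
  c_nonneg : ∀ R, 0 < R → 0 ≤ q.c R
  c_le : ∀ R, 0 < R → q.c R ≤ 1 / 8

/-- the numbers at the point `X` with `|X| = R > 0` -/
def np (δ : ℝ) (X : E4) : NP where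
  F := q.F ‖X‖
  f := dl q.F ‖X‖
  β := q.β ‖X‖
  P := q.P ‖X‖
  P1 := dl q.P ‖X‖
  P2 := dl (dl q.P) ‖X‖
  n := q.n ‖X‖
  n1 := dl q.n ‖X‖
  c := q.c ‖X‖
  c1 := dl q.c ‖X‖
  c2 := dl (dl q.c) ‖X‖
  d := δ / ‖X‖
  S := √(X 2 ^ 2 + X 3 ^ 2) / ‖X‖
  C := √(X 0 ^ 2 + X 1 ^ 2) / ‖X‖

/-- `ρ_δ = √(|z|² + δ²)` -/
def rdl (δ : ℝ) (X : E4) : ℝ := √(X 2 ^ 2 + X 3 ^ 2 + δ ^ 2)

/-- `N = 1 - (n/R)(ρ_δ - δ)` -/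
def lapse (δ : ℝ) (X : E4) : ℝ := 1 - q.n ‖X‖ / ‖X‖ * (rdl δ X - δ)

/-- `B̂ = e + β (1 - e) (1 - (c/R) ρ_δ)`, `e = δ/ρ_δ` -/
def Bh (δ : ℝ) (X : E4) : ℝ :=
  δ / rdl δ X + q.β ‖X‖ * (1 - δ / rdl δ X) * (1 - q.c ‖X‖ / ‖X‖ * rdl δ X)

/-- `H = (B̂² - 1)/|z|²`, written without division by `|z|²` -/
def HH (δ : ℝ) (X : E4) : ℝ :=
  -(q.Bh δ X + 1) * ((1 - q.β ‖X‖) / rdl δ X + q.β ‖X‖ * q.c ‖X‖ / ‖X‖) / (rdl δ X + δ)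

/-- the neck metric `|dX|² + (N²/F - 1) dR² + H (Im z̄dz)²` -/
def neck (δ : ℝ) (X : E4) : Bil E4 :=
  gen 1 ((q.lapse δ X ^ 2 / q.F ‖X‖ - 1) / ‖X‖ ^ 2) 0 (q.HH δ X) X

end Prof

/-- the background metric: `F = 1`, `β = r`, `n = c = 0` -/
def bgP (r : ℝ) : Prof := ⟨fun _ => 1, fun _ => r, fun _ => 0, fun _ => 0, fun _ => 0⟩

def bg (r δ : ℝ) (X : E4) : Bil E4 := (bgP r).neck δ X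

/-- NM: the neck metric is a smooth metric, with bounds. -/
def NeckMetricStmt : Prop :=
  ∀ (q : Prof), q.Ok → (∀ R, 0 < R → q.β R ≤ 1) → (∀ R, 0 < R → q.F R ≤ 1) →
    ∀ δ, 0 < δ → IsMetricOn (q.neck δ) (Om (Fin 4)) ∧
    ∀ r, 0 < r → (∀ R, 0 < R → r ≤ q.β R) → ∀ κ, 0 < κ → (∀ R, 0 < R → κ ≤ q.F R) →
      ∀ X : E4, X ≠ 0 → ∀ V, (r / 4) ^ 2 * ‖V‖ ^ 2 ≤ q.neck δ X V V ∧
        q.neck δ X V V ≤ ‖V‖ ^ 2 / κ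

/-- RIC: the Ricci tensor of the neck metric at a generic point, in an orthonormal frame. -/
def NeckRicStmt : Prop :=
  ∀ (q : Prof), q.Ok → (∀ R, 0 < R → q.β R ≤ 1) → (∀ R, 0 < R → q.F R ≤ 1) → ∀ δ, 0 < δ →
    ∀ X : E4, (X 0 ≠ 0 ∨ X 1 ≠ 0) → (X 2 ≠ 0 ∨ X 3 ≠ 0) → ∀ V : E4,
      ∃ x y z w : ℝ, q.neck δ X V V = x ^ 2 + y ^ 2 + z ^ 2 + w ^ 2 ∧
        ‖X‖ ^ 2 * ric (q.neck δ) X V V = (q.np δ X).ss * x ^ 2 + 2 * (q.np δ X).st * x * y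
          + (q.np δ X).tt * y ^ 2 + (q.np δ X).r11 * z ^ 2 + (q.np δ X).r22 * w ^ 2

/-- CONT: a lower Ricci bound on a dense subset of an open set holds on the open set. -/
def ContStmt : Prop :=
  ∀ (ι : Type) [Fintype ι] [DecidableEq ι] (G : E ι → Bil (E ι)) (U D : Set (E ι)) (lam : ℝ),
    IsMetricOn G U → U ⊆ closure (U ∩ D) →
    (∀ x ∈ U ∩ D, ∀ V, -lam * G x V V ≤ ric G x V V) → ∀ x ∈ U, ∀ V, -lam * G x V V ≤ ric G x V V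

/-! ## The profiles, and the whole neck (helper58) -/

/-- PROF: existence of the profiles. -/
def ProfStmt : Prop :=
  ∀ κ : ℝ, 0 < κ → κ < 1 → ∃ r : ℝ, 0 < r ∧ r < 1 ∧ ∀ η : ℝ, 0 < η → η < 1 →
    ∃ L : ℝ, 64 ≤ L ∧ ∃ q : Prof, q.Ok ∧
      (∀ R, 0 < R → r ≤ q.β R ∧ q.β R ≤ 1) ∧ (∀ R, 0 < R → κ ≤ q.F R ∧ q.F R ≤ 1) ∧
      (∀ R, 0 < R → R ≤ 3 → q.F R = κ ∧ q.β R = 1 ∧ q.P R = 0 ∧ q.n R = 0 ∧ q.c R = 0) ∧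
      (∀ R, L / 4 ≤ R → q.F R = 1 ∧ q.β R = r ∧ q.P R = 0 ∧ q.n R = 0 ∧ q.c R = 0) ∧
      ∀ δ (X : E4), X ≠ 0 → ‖X‖ ≤ L → (q.np δ X).hyp (η * ‖X‖ ^ 2 / L ^ 2)

/-- NECK: the whole neck. -/
def NeckStmt : Prop :=
  ∀ κ : ℝ, 0 < κ → κ < 1 → ∃ r c0 : ℝ, 0 < r ∧ r < 1 ∧ 0 < c0 ∧ ∀ η : ℝ, 0 < η → η < 1 →
    ∃ L : ℝ, 64 ≤ L ∧ ∃ δ0 : ℝ, 0 < δ0 ∧ ∀ δ, 0 < δ → δ ≤ δ0 →
      ∃ G : E4 → Bil E4, IsMetricOn G (Om (Fin 4)) ∧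
        (∀ X : E4, X ≠ 0 → ‖X‖ ≤ 3 → G X = gen 1 ((1 / κ - 1) / ‖X‖ ^ 2) 0 0 X) ∧
        (∀ X : E4, L / 4 ≤ ‖X‖ → G X = bg r δ X) ∧
        (∀ X : E4, 2 < ‖X‖ → ‖X‖ ≤ L → ∀ V, -(η / L ^ 2) * G X V V ≤ ric G X V V) ∧
        (∀ X : E4, X ≠ 0 → ∀ V, c0 * ‖V‖ ^ 2 ≤ G X V V ∧ G X V V ≤ ‖V‖ ^ 2 / κ)

/-! ## The core -/

/-- the `U(2)` invariant metric `dR²/F + R² η² + B² h_FS` -/
def u2 (F B : ℝ → ℝ) (X : E4) : Bil E4 :=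
  gen (B ‖X‖ ^ 2 / ‖X‖ ^ 2) ((1 / F ‖X‖ - B ‖X‖ ^ 2 / ‖X‖ ^ 2) / ‖X‖ ^ 2)
    ((1 - B ‖X‖ ^ 2 / ‖X‖ ^ 2) / ‖X‖ ^ 2) 0 X

/-- the eigenvalues of the Ricci tensor -/
def ucA (F B : ℝ → ℝ) (R : ℝ) : ℝ := -deriv F R / 2 / R
  - 2 * (F R * deriv (deriv B) R + deriv F R * deriv B R / 2) / B R
def ucB (F B : ℝ → ℝ) (R : ℝ) : ℝ := -deriv F R / 2 / R
  - 2 * F R * deriv B R / (R * B R) + 2 * R ^ 2 / B R ^ 4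
def ucC (F B : ℝ → ℝ) (R : ℝ) : ℝ :=
  -(F R * deriv (deriv B) R + deriv F R * deriv B R / 2) / B R - F R * deriv B R ^ 2 / B R ^ 2
    - F R * deriv B R / (R * B R) + 4 / B R ^ 2 - 2 * R ^ 2 / B R ^ 4

/-- smooth and positive -/
structure UOk (F B : ℝ → ℝ) : Prop where
  F_smooth : ContDiffOn ℝ ∞ F (Ioi 0)
  B_smooth : ContDiffOn ℝ ∞ B (Ioi 0)
  F_pos : ∀ R, 0 < R → 0 < F R
  B_pos : ∀ R, 0 < R → 0 < B R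

/-- the base point `(R,0,0,0)` -/
def Xb (R : ℝ) : E4 := WithLp.toLp 2 ![R, 0, 0, 0]

/-- U2M: it is a smooth metric. -/
def U2MetricStmt : Prop := ∀ (F B : ℝ → ℝ), UOk F B → IsMetricOn (u2 F B) (Om (Fin 4))

/-- U2B: its Ricci tensor at the base point. -/
def U2BaseStmt : Prop :=
  ∀ (F B : ℝ → ℝ), UOk F B → ∀ R : ℝ, 0 < R → ∀ V : E4, ric (u2 F B) (Xb R) V V =
    ucA F B R * (V 0 ^ 2 / F R) + ucB F B R * V 1 ^ 2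
      + ucC F B R * (B R ^ 2 / R ^ 2 * (V 2 ^ 2 + V 3 ^ 2))

/-- U2E: homogeneity under `U(2)`. -/
def U2EquivStmt : Prop :=
  ∀ (F B : ℝ → ℝ), UOk F B → ∀ X : E4, X ≠ 0 → ∃ A : E4 ≃ₗᵢ[ℝ] E4, A (Xb ‖X‖) = X ∧
    (∀ Y V W, u2 F B (A Y) (A V) (A W) = u2 F B Y V W) ∧
    ∀ V W, ric (u2 F B) X (A V) (A W) = ric (u2 F B) (Xb ‖X‖) V W

/-- U2R: sign of the Ricci tensor. -/
def U2RicStmt : Prop :=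
  ∀ (F B : ℝ → ℝ), UOk F B → ∀ R : ℝ, 0 < R → 0 ≤ ucA F B R → 0 ≤ ucB F B R → 0 ≤ ucC F B R →
    ∀ X : E4, ‖X‖ = R → ∀ V : E4, 0 ≤ ric (u2 F B) X V V

/-- CORE: the core functions. -/
def CoreStmt : Prop :=
  ∃ (κ b : ℝ) (F B : ℝ → ℝ), 0 < κ ∧ κ < 1 ∧ 0 < b ∧ b ≤ 2 ∧ UOk F B ∧
    (∀ R, 0 < R → κ ≤ F R ∧ F R ≤ 1) ∧ (∀ R, 0 < R → b ≤ B R ∧ R ≤ B R) ∧
    (∀ R, 0 < R → R ≤ 2 → B R ≤ 2) ∧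
    (∀ R, 0 < R → R ≤ 1 / 4 → F R = 1 ∧ B R = b) ∧
    (∀ R, 2 ≤ R → F R = κ ∧ B R = R) ∧
    ∀ R, 0 < R → 0 ≤ ucA F B R ∧ 0 ≤ ucB F B R ∧ 0 ≤ ucC F B R

/-- HOPF: the differential of the Hopf map. -/
def HopfStmt : Prop :=
  ContDiffOn ℝ ∞ hopf (Om (Fin 4)) ∧ ∀ X : E4, X ≠ 0 → ∀ V : E4,
    ‖fderiv ℝ hopf X V‖ ^ 2 * ‖X‖ ^ 4 =
      4 * (‖X‖ ^ 2 * ‖V‖ ^ 2 - ⟪X, V⟫ ^ 2 - ⟪JJ X, V⟫ ^ 2)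

/-- EXT: the core metric extends over the exceptional sphere, in both charts. -/
def ExtStmt : Prop :=
  ∀ b : ℝ, 0 < b → ∀ i : Bool, ∃ C : E4 → Bil E4, IsMetricOn C WW ∧
    ∀ q ∈ WW, (q 0 ≠ 0 ∨ q 1 ≠ 0) → C q = pullb (coreM b) (Phi0 i) q

/-! ## The model and the metrics `g j` -/

/-- MT: the model metric at scale `1`. -/
def ModelStmt : Prop :=
  ∃ r b c0 c1 C0 : ℝ, 0 < r ∧ r < 1 ∧ 0 < b ∧ 0 < c0 ∧ 0 < c1 ∧ 0 < C0 ∧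
    ∀ η : ℝ, 0 < η → η < 1 → ∃ L : ℝ, 64 ≤ L ∧ ∃ δ0 : ℝ, 0 < δ0 ∧ ∀ δ, 0 < δ → δ ≤ δ0 →
      ∃ G : E4 → Bil E4, IsMetricOn G (Om (Fin 4)) ∧
        (∀ X : E4, X ≠ 0 → ‖X‖ < 1 / 4 → G X = coreM b X) ∧
        (∀ X : E4, L / 4 ≤ ‖X‖ → G X = bg r δ X) ∧
        (∀ X : E4, X ≠ 0 → ‖X‖ ≤ L → ∀ V, -(η / L ^ 2) * G X V V ≤ ric G X V V) ∧
        (∀ X : E4, X ≠ 0 → ∀ V, c0 * ‖V‖ ^ 2 ≤ G X V V) ∧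
        (∀ X : E4, X ≠ 0 → ∀ V, c1 * ‖fderiv ℝ hopf X V‖ ^ 2 ≤ G X V V) ∧
        (∀ X : E4, 1 ≤ ‖X‖ → ∀ V, G X V V ≤ C0 * ‖V‖ ^ 2) ∧
        (∀ X : E4, X ≠ 0 → ‖X‖ ≤ 1 → ∀ V, G X V V ≤ C0 * (‖V‖ ^ 2 + ‖fderiv ℝ hopf X V‖ ^ 2))

/-- BGR: the background metric has `Ric ≥ 0`. -/
def BgRicStmt : Prop :=
  ∀ r δ : ℝ, 0 < r → r < 1 → 0 < δ → IsMetricOn (bg r δ) univ ∧
    (∀ X V, 0 ≤ ric (bg r δ) X V V) ∧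
    ∀ X V, (r / 4) ^ 2 * ‖V‖ ^ 2 ≤ bg r δ X V V ∧ bg r δ X V V ≤ ‖V‖ ^ 2

/-- BGM: the background metric is a smooth metric. -/
def BgMetricStmt : Prop :=
  ∀ r δ : ℝ, 0 < r → r < 1 → 0 < δ → IsMetricOn (bg r δ) univ ∧
    ∀ X V, (r / 4) ^ 2 * ‖V‖ ^ 2 ≤ bg r δ X V V ∧ bg r δ X V V ≤ ‖V‖ ^ 2

/-- BGG: at generic points (helper58). -/
def BgGenStmt : Prop :=
  ∀ r δ : ℝ, 0 < r → r < 1 → 0 < δ → ∀ X : E4, (X 0 ≠ 0 ∨ X 1 ≠ 0) → (X 2 ≠ 0 ∨ X 3 ≠ 0) →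
    ∀ V, 0 ≤ ric (bg r δ) X V V

/-- BGS: scaling and translation invariance of the background metric. -/
def BgScaleStmt : Prop :=
  ∀ r δ w : ℝ, 0 < w → 0 < δ → ∀ (Q X V W : E4), Q 2 = 0 → Q 3 = 0 →
    bg r (δ / w) (w⁻¹ • (X - Q)) V W = bg r δ X V W

/-- SCL: scaling and translation. -/
def SclStmt : Prop :=
  ∀ (G : E4 → Bil E4) (U : Set E4) (w : ℝ) (Q : E4), 0 < w → IsMetricOn G U →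
    IsMetricOn (fun X => G (w⁻¹ • (X - Q))) {X | w⁻¹ • (X - Q) ∈ U} ∧
    ∀ X, w⁻¹ • (X - Q) ∈ U → ∀ V,
      ric (fun X => G (w⁻¹ • (X - Q))) X V V = (w ^ 2)⁻¹ * ric G (w⁻¹ • (X - Q)) V V

/-- SEL: the points. -/
def SelStmt : Prop :=
  ∃ (x : ℕ → ℝ × ℝ) (s : ℕ → ℝ) (K : Set (ℝ × ℝ)),
    (∀ k, |(x k).1| ≤ 1 ∧ |(x k).2| ≤ 1) ∧ (∀ k, 0 < s k) ∧ (∀ k, s k ≤ 1 / 2 ^ (k + 3)) ∧
    (∀ k l, k ≠ l → 2 * (s k + s l) ≤ √(((x k).1 - (x l).1) ^ 2 + ((x k).2 - (x l).2) ^ 2)) ∧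
    (∀ y ∈ K, ∀ k, y ≠ x k) ∧ 0 < MeasureTheory.volume K ∧
    ∀ y ∈ K, ∀ ε > 0, ∀ N, ∃ k ≥ N, √(((x k).1 - y.1) ^ 2 + ((x k).2 - y.2) ^ 2) < ε

/-! ## The metrics `g j` -/

/-- the data from which the metrics `g j` are built -/
structure GData where
  P : ℕ → E4
  s : ℕ → ℝ
  L : ℕ → ℝ
  dlt : ℕ → ℝ
  G : ℕ → ℕ → E4 → Bil E4
  r : ℝ
  b : ℝ
  c0 : ℝ
  c1 : ℝ
  C0 : ℝ
  r_pos : 0 < r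
  r_lt : r < 1
  b_pos : 0 < b
  c0_pos : 0 < c0
  c1_pos : 0 < c1
  C0_pos : 0 < C0
  P2 : ∀ k, P k 2 = 0
  P3 : ∀ k, P k 3 = 0
  s_pos : ∀ k, 0 < s k
  s_le : ∀ k, s k ≤ 1 / 2 ^ (k + 3)
  disj : ∀ k l, k ≠ l → 2 * (s k + s l) ≤ dist (P k) (P l)
  L_ge : ∀ k, 64 ≤ L k
  dlt_pos : ∀ j, 0 < dlt j
  metric : ∀ j, ∀ k < j, IsMetricOn (G j k) (Om (Fin 4))
  core : ∀ j, ∀ k < j, ∀ X : E4, X ≠ 0 → ‖X‖ < 1 / 4 → G j k X = coreM b X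
  out : ∀ j, ∀ k < j, ∀ X : E4, L k / 4 ≤ ‖X‖ → G j k X = bg r (dlt j / (s k / L k)) X
  ric_ge : ∀ j, ∀ k < j, ∀ X : E4, X ≠ 0 → ‖X‖ ≤ L k → ∀ V,
    -(s k ^ 2 / L k ^ 2) * G j k X V V ≤ ric (G j k) X V V
  low : ∀ j, ∀ k < j, ∀ X : E4, X ≠ 0 → ∀ V, c0 * ‖V‖ ^ 2 ≤ G j k X V V
  lowv : ∀ j, ∀ k < j, ∀ X : E4, X ≠ 0 → ∀ V, c1 * ‖fderiv ℝ hopf X V‖ ^ 2 ≤ G j k X V V
  up : ∀ j, ∀ k < j, ∀ X : E4, 1 ≤ ‖X‖ → ∀ V, G j k X V V ≤ C0 * ‖V‖ ^ 2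
  upv : ∀ j, ∀ k < j, ∀ X : E4, X ≠ 0 → ‖X‖ ≤ 1 → ∀ V,
    G j k X V V ≤ C0 * (‖V‖ ^ 2 + ‖fderiv ℝ hopf X V‖ ^ 2)

namespace GData

variable (D : GData)

def w (k : ℕ) : ℝ := D.s k / D.L k

open Classical in
/-- the metric `g j` -/
def g (j : ℕ) (X : E4) : Bil E4 :=
  if h : ∃ k < j, ‖X - D.P k‖ < D.s k then
    D.G j h.choose ((D.w h.choose)⁻¹ • (X - D.P h.choose))
  else bg D.r (D.dlt j) X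

/-- the domain -/
def Dom (j : ℕ) : Set E4 := {X | ∀ k < j, X ≠ D.P k}

end GData

/-- GLO: local form of `g j`. -/
def GloStmt : Prop := ∀ (D : GData) (j : ℕ),
  (∀ k < j, ∀ X, ‖X - D.P k‖ < D.s k → D.g j X = D.G j k ((D.w k)⁻¹ • (X - D.P k))) ∧
  (∀ X, (∀ k < j, D.s k / 4 ≤ ‖X - D.P k‖) → D.g j X = bg D.r (D.dlt j) X)

/-- GMR: metric and Ricci bound. -/
def GmrStmt : Prop := ∀ (D : GData) (j : ℕ), IsMetricOn (D.g j) (D.Dom j) ∧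
  ∀ X ∈ D.Dom j, ∀ V, -(D.g j X V V) ≤ ric (D.g j) X V V

/-- GEX: extension over the exceptional spheres. -/
def GexStmt : Prop := ∀ (D : GData) (j : ℕ), ∀ k < j, ∀ i : Bool, ∃ C : E4 → Bil E4,
  IsMetricOn C WW ∧ ∀ q ∈ WW, (q 0 ≠ 0 ∨ q 1 ≠ 0) →
    C q = pullb (D.g j) (fun q => D.P k + D.w k • Phi0 i q) q

/-- GBD: bounds. -/
def GbdStmt : Prop := ∀ (D : GData), ∃ c0 c1 C0 : ℝ, 0 < c0 ∧ 0 < c1 ∧ ∀ j : ℕ,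
  (∀ X ∈ D.Dom j, ∀ V, c0 * ‖V‖ ^ 2 ≤ D.g j X V V) ∧
  (∀ k < j, ∀ X ∈ D.Dom j, ∀ V,
    c1 * (D.w k * ‖fderiv ℝ hopf (X - D.P k) V‖) ^ 2 ≤ D.g j X V V) ∧
  (∀ X, (∀ k < j, D.w k ≤ ‖X - D.P k‖) → ∀ V, D.g j X V V ≤ C0 * ‖V‖ ^ 2) ∧
  ∀ k < j, ∀ X, X ≠ D.P k → ‖X - D.P k‖ ≤ D.w k → ∀ V,
    D.g j X V V ≤ C0 * (‖V‖ ^ 2 + (D.w k * ‖fderiv ℝ hopf (X - D.P k) V‖) ^ 2)

/-- GDA: existence of the data, from the model and the points. -/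
def GdaStmt : Prop := ∃ D : GData, (∀ k, ‖D.P k‖ ≤ 2) ∧ ∃ K : Set E4,
  (∀ X ∈ K, X 2 = 0 ∧ X 3 = 0) ∧ (∀ X ∈ K, ∀ k, X ≠ D.P k) ∧
  0 < MeasureTheory.volume ((fun X : E4 => (X 0, X 1)) '' K) ∧
  ∀ X ∈ K, ∀ ε > 0, ∀ N, ∃ k ≥ N, dist (D.P k) X < ε

end Pool.Agent.RLim
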